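import Pool.Agent.MVO.StmtsL

/-!
# Squad MVO, row OAR
-/

set_option autoImplicit false

namespace Pool.Agent.MVO.H34

open Pool.Agent.Helper14_MV Pool.Agent.Helper2_MV Pool.Agent.MVO

theorem mem_sp {k : ℕ} {a : ℕ → ℕ} {j : ℕ} : j ∈ sp k a ↔ j ≤ k ∧ a j ≠ 0 := by
  unfold sp
  rw [Finset.mem_filter, Finset.mem_range, Nat.lt_succ_iff]

theorem deg_psh {k k' : ℕ} {g a : ℕ → ℕ} (hg : ∀ i ≤ k, g i ≤ k') :
    deg k' (psh k g a) = deg k a := by
  unfold deg psh
  rw [Finset.sum_comm]
  refine Finset.sum_congr rfl fun i hi => ?_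
  rw [Finset.sum_ite_eq, if_pos]
  rw [Finset.mem_range] at hi ⊢
  exact Nat.lt_succ_of_le (hg i (Nat.lt_succ_iff.1 hi))

theorem sp_psh {k k' : ℕ} {g a : ℕ → ℕ} (hg : ∀ i ≤ k, g i ≤ k') :
    sp k' (psh k g a) = (sp k a).image g := by
  ext j
  rw [mem_sp, Finset.mem_image]
  unfold psh
  rw [Ne, Finset.sum_eq_zero_iff]
  push Not
  constructor
  · rintro ⟨_, i, hi, h⟩
    rw [Finset.mem_range] at hi
    by_cases hj : g i = j
    · rw [if_pos hj] at h
      exact ⟨i, mem_sp.2 ⟨Nat.lt_succ_iff.1 hi, h⟩, hj⟩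
    · rw [if_neg hj] at h
      exact absurd rfl h
  · rintro ⟨i, hi, hj⟩
    obtain ⟨h1, h2⟩ := mem_sp.1 hi
    refine ⟨hj ▸ hg i h1, i, Finset.mem_range.2 (Nat.lt_succ_of_le h1), ?_⟩
    rw [if_pos hj]
    exact h2

theorem sp_nonempty {k : ℕ} {a : ℕ → ℕ} (h : deg k a ≠ 0) : (sp k a).Nonempty := by
  by_contra hn
  rw [Finset.not_nonempty_iff_eq_empty] at hn
  apply h
  unfold deg
  refine Finset.sum_eq_zero fun j hj => ?_
  by_contra hj0
  have : j ∈ sp k a := mem_sp.2 ⟨Nat.lt_succ_iff.1 (Finset.mem_range.1 hj), hj0⟩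
  rw [hn] at this
  exact absurd this (Finset.notMem_empty j)

theorem card_sp_le (k : ℕ) (a : ℕ → ℕ) : (sp k a).card ≤ deg k a := by
  unfold sp deg
  rw [Finset.card_filter]
  refine Finset.sum_le_sum fun j _ => ?_
  split_ifs with h
  · exact Nat.one_le_iff_ne_zero.2 h
  · exact Nat.zero_le _

theorem sp_sg {k i d : ℕ} (hi : i ≤ k) (hd : d ≠ 0) : sp k (sg i d) = {i} := by
  ext j
  rw [mem_sp, Finset.mem_singleton]
  unfold sg
  constructor
  · rintro ⟨_, h⟩
    by_contra hj
    rw [if_neg hj] at h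
    exact h rfl
  · rintro rfl
    rw [if_pos rfl]
    exact ⟨hi, hd⟩

theorem deg_sg {k i d : ℕ} (hi : i ≤ k) : deg k (sg i d) = d := by
  unfold deg sg
  rw [Finset.sum_ite_eq' (Finset.range (k + 1)) i (fun _ => d), if_pos]
  exact Finset.mem_range.2 (Nat.lt_succ_of_le hi)

/-- a set with at most two elements -/
theorem eq_pair {S : Finset ℕ} (h : S.Nonempty) (h2 : S.card ≤ 2) :
    S = {S.min' h, S.max' h} := by
  have hsub : ({S.min' h, S.max' h} : Finset ℕ) ⊆ S := by
    intro x hx
    rw [Finset.mem_insert, Finset.mem_singleton] at hx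
    rcases hx with rfl | rfl
    · exact S.min'_mem h
    · exact S.max'_mem h
  by_cases he : S.min' h = S.max' h
  · refine Finset.Subset.antisymm (fun x hx => ?_) hsub
    have h1 := S.min'_le x hx
    have h3 := S.le_max' x hx
    rw [Finset.mem_insert, Finset.mem_singleton]
    left
    omega
  · refine (Finset.eq_of_subset_of_card_le hsub ?_).symm
    rw [Finset.card_pair he]
    exact h2

theorem min'_eq {S S' : Finset ℕ} (h : S.Nonempty) (h' : S'.Nonempty) (he : S.min = S'.min) :
    S.min' h = S'.min' h' := by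
  have h1 := Finset.coe_min' h
  have h2 := Finset.coe_min' h'
  rw [he, ← h2] at h1
  exact WithTop.coe_injective h1

theorem max'_eq {S S' : Finset ℕ} (h : S.Nonempty) (h' : S'.Nonempty) (he : S.max = S'.max) :
    S.max' h = S'.max' h' := by
  have h1 := Finset.coe_max' h
  have h2 := Finset.coe_max' h'
  rw [he, ← h2] at h1
  exact WithBot.coe_injective h1

section

variable {R : FC} {d : ℕ}

/-- a relation and all its images under order preserving maps -/
theorem push_rel (oaa : OaaStmt) (hO : O1 R ∨ d = 2) {k : ℕ} {a b : ℕ → ℕ} (ha : deg k a = d)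
    (hb : deg k b = d) (h : R.R k a b) {f : ℕ → ℕ} (hf : Monotone f) {k' : ℕ} {a' b' : ℕ → ℕ}
    (ha' : deg k' a' = d) (hb' : deg k' b' = d) (e1 : sp k' a' = (sp k a).image f)
    (e2 : sp k' b' = (sp k b).image f) : R.R k' a' b' := by
  have hg : BMap k k' (fun j => min (f j) k') :=
    ⟨fun i j hij _ => min_le_min_right _ (hf hij), fun i _ => min_le_right _ _⟩
  have himg : ∀ {c c' : ℕ → ℕ}, sp k' c' = (sp k c).image f →
      (sp k c).image (fun j => min (f j) k') = (sp k c).image f := by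
    intro c c' he
    refine Finset.image_congr fun x hx => ?_
    have h1 : f x ∈ sp k' c' := by
      rw [he]
      exact Finset.mem_image_of_mem f hx
    exact min_eq_left (mem_sp.1 h1).1
  have h1 : R.R k' a' (psh k (fun j => min (f j) k') a) := by
    refine oaa R k' a' _ ?_ ?_ ?_
    · rw [ha']; exact hO
    · rw [deg_psh hg.le, ha', ha]
    · rw [sp_psh hg.le, himg e1, e1]
  have h2 : R.R k' (psh k (fun j => min (f j) k') b) b' := by
    refine R.symm (oaa R k' b' _ ?_ ?_ ?_)
    · rw [hb']; exact hO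
    · rw [deg_psh hg.le, hb', hb]
    · rw [sp_psh hg.le, himg e2, e2]
  exact R.trans (R.trans h1 (R.push k' _ hg h)) h2

theorem ip_small (oaa : OaaStmt) (hO : O1 R ∨ d = 2) (hd : d ≠ 0) {m : ℕ} (hm : m ≤ 2) :
    IP R m d := by
  intro k a b ha hb ca cb hmin hmax
  have na : (sp k a).Nonempty := sp_nonempty (by rw [ha]; exact hd)
  have nb : (sp k b).Nonempty := sp_nonempty (by rw [hb]; exact hd)
  refine oaa R k a b (by rw [ha]; exact hO) (ha.trans hb.symm) ?_
  rw [eq_pair na (ca.trans hm), eq_pair nb (cb.trans hm), min'_eq na nb hmin, max'_eq na nb hmax]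

/-- two blocks against the last of them -/
theorem bp_of (oaa : OaaStmt) (hO : O1 R ∨ d = 2) (hd : d ≠ 0)
    (h : ∀ (j l k : ℕ) (a b : ℕ → ℕ), j < l → deg k a = d → deg k b = d → sp k a = {j, l} →
      sp k b = {l} → R.R k a b) : BP R d := by
  have key : ∀ (k l : ℕ) (a : ℕ → ℕ), deg k a = d → (sp k a).card ≤ 2 →
      (∀ hn : (sp k a).Nonempty, (sp k a).max' hn = l) → R.R k a (sg l d) := by
    intro k l a ha ca hl
    have na : (sp k a).Nonempty := sp_nonempty (by rw [ha]; exact hd)
    have hl1 := hl na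
    have hlk : l ≤ k := by
      rw [← hl1]
      exact (mem_sp.1 ((sp k a).max'_mem na)).1
    have hp := eq_pair na ca
    rw [hl1] at hp
    by_cases he : (sp k a).min' na = l
    · refine oaa R k a _ (by rw [ha]; exact hO) (by rw [ha, deg_sg hlk]) ?_
      rw [sp_sg hlk hd, hp]
      rw [he]
      simp
    · have hlt : (sp k a).min' na < l := by
        refine lt_of_le_of_ne ?_ he
        rw [← hl1]
        exact (sp k a).min'_le _ ((sp k a).max'_mem na)
      exact h _ l k a (sg l d) hlt ha (deg_sg hlk) hp (sp_sg hlk hd)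
  intro k a b ha hb ca cb hmax
  have na : (sp k a).Nonempty := sp_nonempty (by rw [ha]; exact hd)
  have nb : (sp k b).Nonempty := sp_nonempty (by rw [hb]; exact hd)
  exact R.trans (key k ((sp k a).max' na) a ha ca fun _ => rfl)
    (R.symm (key k ((sp k a).max' na) b hb cb fun _ => max'_eq _ _ hmax.symm))

/-- two blocks against the first of them -/
theorem ap_of (oaa : OaaStmt) (hO : O1 R ∨ d = 2) (hd : d ≠ 0)
    (h : ∀ (j l k : ℕ) (a b : ℕ → ℕ), j < l → deg k a = d → deg k b = d → sp k a = {j, l} →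
      sp k b = {j} → R.R k a b) : AP R d := by
  have key : ∀ (k j : ℕ) (a : ℕ → ℕ), deg k a = d → (sp k a).card ≤ 2 →
      (∀ hn : (sp k a).Nonempty, (sp k a).min' hn = j) → R.R k a (sg j d) := by
    intro k j a ha ca hl
    have na : (sp k a).Nonempty := sp_nonempty (by rw [ha]; exact hd)
    have hl1 := hl na
    have hlk : j ≤ k := by
      rw [← hl1]
      exact (mem_sp.1 ((sp k a).min'_mem na)).1
    have hp := eq_pair na ca
    rw [hl1] at hp
    by_cases he : (sp k a).max' na = j
    · refine oaa R k a _ (by rw [ha]; exact hO) (by rw [ha, deg_sg hlk]) ?_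
      rw [sp_sg hlk hd, hp]
      rw [he]
      simp
    · have hlt : j < (sp k a).max' na := by
        refine lt_of_le_of_ne ?_ (Ne.symm he)
        rw [← hl1]
        exact (sp k a).min'_le _ ((sp k a).max'_mem na)
      exact h j _ k a (sg j d) hlt ha (deg_sg hlk) hp (sp_sg hlk hd)
  intro k a b ha hb ca cb hmin
  have na : (sp k a).Nonempty := sp_nonempty (by rw [ha]; exact hd)
  have nb : (sp k b).Nonempty := sp_nonempty (by rw [hb]; exact hd)
  exact R.trans (key k ((sp k a).min' na) a ha ca fun _ => rfl)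
    (R.symm (key k ((sp k a).min' na) b hb cb fun _ => min'_eq _ _ hmin.symm))

/-- a step between two blocks -/
def stp (q j l : ℕ) : ℕ → ℕ := fun i => if i ≤ q then j else l

theorem stp_mono {q j l : ℕ} (h : j ≤ l) : Monotone (stp q j l) := by
  intro x y hxy
  unfold stp
  split_ifs
  · exact le_rfl
  · exact h
  · omega
  · exact le_rfl

theorem img_low {S : Finset ℕ} {q j l : ℕ} (hn : S.Nonempty) (h : ∀ x ∈ S, x ≤ q) :
    S.image (stp q j l) = {j} := by
  ext y
  rw [Finset.mem_image, Finset.mem_singleton]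
  constructor
  · rintro ⟨x, hx, rfl⟩
    unfold stp
    rw [if_pos (h x hx)]
  · rintro rfl
    obtain ⟨x, hx⟩ := hn
    refine ⟨x, hx, ?_⟩
    unfold stp
    rw [if_pos (h x hx)]

theorem img_high {S : Finset ℕ} {q j l : ℕ} (hn : S.Nonempty) (h : ∀ x ∈ S, q < x) :
    S.image (stp q j l) = {l} := by
  ext y
  rw [Finset.mem_image, Finset.mem_singleton]
  constructor
  · rintro ⟨x, hx, rfl⟩
    unfold stp
    rw [if_neg (not_le.2 (h x hx))]
  · rintro rfl
    obtain ⟨x, hx⟩ := hn
    refine ⟨x, hx, ?_⟩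
    unfold stp
    rw [if_neg (not_le.2 (h x hx))]

theorem img_both {S : Finset ℕ} {q j l x y : ℕ} (hx : x ∈ S) (hy : y ∈ S) (h1 : x ≤ q)
    (h2 : q < y) : S.image (stp q j l) = {j, l} := by
  ext z
  rw [Finset.mem_image, Finset.mem_insert, Finset.mem_singleton]
  constructor
  · rintro ⟨w, hw, rfl⟩
    unfold stp
    split_ifs
    · exact Or.inl rfl
    · exact Or.inr rfl
  · rintro (rfl | rfl)
    · refine ⟨x, hx, ?_⟩
      unfold stp
      rw [if_pos h1]
    · refine ⟨y, hy, ?_⟩
      unfold stp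
      rw [if_neg (not_le.2 h2)]

/-- (i), one order of the sizes -/
theorem part1 (sep : SepStmt) (oai : OaiStmt) {k : ℕ} {a b : ℕ → ℕ}
    (hO : O1 R) (ha : deg k a = d) (hb : deg k b = d) (hd : d ≠ 0) (h : R.R k a b)
    (hne : sp k a ≠ sp k b) (hc : (sp k b).card ≤ (sp k a).card) (h2 : 2 ≤ (sp k a).card) :
    IP R (sp k a).card d := by
  have na : (sp k a).Nonempty := sp_nonempty (by rw [ha]; exact hd)
  have nb : (sp k b).Nonempty := sp_nonempty (by rw [hb]; exact hd)
  rcases sep (sp k a) (sp k b) na nb hne hc h2 with ⟨f, hf, hfS, hfix, hss⟩ | ⟨he, f, hf, hfS, hfix, hss⟩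
  · have hg : BMap k k f := ⟨fun i j hij _ => hf hij, fun i _ => (mem_sp.1 (hfS i)).1⟩
    have ea : sp k (psh k f a) = sp k a := by
      rw [sp_psh hg.le]
      conv_rhs => rw [← Finset.image_id (s := sp k a)]
      exact Finset.image_congr fun x hx => hfix x hx
    have h3 := oai R k (psh k f a) (psh k f b) hO (by rw [deg_psh hg.le, deg_psh hg.le, ha, hb])
      (by rw [ea, sp_psh hg.le]; exact hss) (R.push k f hg h)
      (by rw [sp_psh hg.le]; exact nb.image f)
    rw [ea, deg_psh hg.le, ha] at h3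
    exact h3
  · have hg : BMap k k f := ⟨fun i j hij _ => hf hij, fun i _ => (mem_sp.1 (hfS i)).1⟩
    have eb : sp k (psh k f b) = sp k b := by
      rw [sp_psh hg.le]
      conv_rhs => rw [← Finset.image_id (s := sp k b)]
      exact Finset.image_congr fun x hx => hfix x hx
    have h3 := oai R k (psh k f b) (psh k f a) hO (by rw [deg_psh hg.le, deg_psh hg.le, ha, hb])
      (by rw [eb, sp_psh hg.le]; exact hss) (R.symm (R.push k f hg h))
      (by rw [sp_psh hg.le]; exact na.image f)
    rw [eb, deg_psh hg.le, hb, he] at h3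
    exact h3

/-- (ii), one order of the minima -/
theorem part2 (oaa : OaaStmt) (hO : O1 R ∨ d = 2) (hd : d ≠ 0) {k : ℕ} {a b : ℕ → ℕ}
    (ha : deg k a = d) (hb : deg k b = d) (h : R.R k a b) {p : ℕ} (hp : p ∈ sp k a)
    (hpb : ∀ x ∈ sp k b, p < x) (hc : ¬ ((sp k a).card = 1 ∧ (sp k b).card = 1)) : BP R d := by
  have nb : (sp k b).Nonempty := sp_nonempty (by rw [hb]; exact hd)
  have hspk : ∀ {j l k' : ℕ} {c : ℕ → ℕ}, sp k' c = {j, l} → j ≤ k' ∧ l ≤ k' := by
    intro j l k' c he
    have h1 : j ∈ sp k' c := by rw [he]; exact Finset.mem_insert_self _ _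
    have h2 : l ∈ sp k' c := by
      rw [he]
      exact Finset.mem_insert_of_mem (Finset.mem_singleton_self _)
    exact ⟨(mem_sp.1 h1).1, (mem_sp.1 h2).1⟩
  by_cases hy : ∃ y ∈ sp k a, p < y
  · obtain ⟨y, hy, hpy⟩ := hy
    refine bp_of oaa hO hd fun j l k' a' b' hjl ha' hb' e1 e2 => ?_
    exact push_rel oaa hO ha hb h (stp_mono (q := p) hjl.le) ha' hb'
      (by rw [img_both hp hy le_rfl hpy, e1]) (by rw [img_high nb hpb, e2])
  · push Not at hy
    by_cases h1 : ∀ x ∈ sp k a, x = p
    · -- `S` has one element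
      have hS : sp k a = {p} := by
        ext x
        rw [Finset.mem_singleton]
        exact ⟨h1 x, fun hx => hx ▸ hp⟩
      have hcb : (sp k b).card ≠ 1 := fun hcb => hc ⟨by rw [hS]; exact Finset.card_singleton p, hcb⟩
      obtain ⟨q, hq, hqm⟩ : ∃ q ∈ sp k b, ∀ x ∈ sp k b, q ≤ x :=
        ⟨_, (sp k b).min'_mem nb, fun x hx => (sp k b).min'_le x hx⟩
      obtain ⟨y, hy1, hy2⟩ : ∃ y ∈ sp k b, q < y := by
        by_contra hcon
        push Not at hcon
        apply hcb
        rw [Finset.card_eq_one]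
        refine ⟨q, ?_⟩
        ext x
        rw [Finset.mem_singleton]
        exact ⟨fun hx => le_antisymm (hcon x hx) (hqm x hx), fun hx => hx ▸ hq⟩
      have hpq := hpb q hq
      refine bp_of oaa hO hd fun j l k' a' b' hjl ha' hb' e1 e2 => ?_
      obtain ⟨hjk, hlk⟩ := hspk e1
      have r1 : R.R k' (sg j d) b' := push_rel oaa hO ha hb h (stp_mono (q := p) hjl.le)
        (deg_sg hjk) hb' (by rw [sp_sg hjk hd, hS]; simp [stp]) (by rw [img_high nb hpb, e2])
      have r2 : R.R k' (sg j d) a' := push_rel oaa hO ha hb h (stp_mono (q := q) hjl.le)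
        (deg_sg hjk) ha' (by
          rw [sp_sg hjk hd, img_low ⟨p, hp⟩]
          intro x hx
          rw [h1 x hx]
          exact hpq.le) (by rw [img_both hq hy1 le_rfl hy2, e1])
      exact R.trans (R.symm r2) r1
    · -- `S` has another element, smaller than `p`
      push Not at h1
      obtain ⟨y, hy1, hy2⟩ := h1
      have hyp : y < p := lt_of_le_of_ne (hy y hy1) hy2
      refine bp_of oaa hO hd fun j l k' a' b' hjl ha' hb' e1 e2 => ?_
      refine push_rel oaa hO ha hb h (stp_mono (q := y) hjl.le) ha' hb'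
        (by rw [img_both hy1 hp le_rfl hyp, e1]) ?_
      rw [img_high nb fun x hx => hyp.trans (hpb x hx), e2]

/-- (iii), one order of the maxima -/
theorem part3 (oaa : OaaStmt) (hO : O1 R ∨ d = 2) (hd : d ≠ 0) {k : ℕ} {a b : ℕ → ℕ}
    (ha : deg k a = d) (hb : deg k b = d) (h : R.R k a b) {p : ℕ} (hp : p ∈ sp k a)
    (hpb : ∀ x ∈ sp k b, x < p) (hc : ¬ ((sp k a).card = 1 ∧ (sp k b).card = 1)) : AP R d := by
  have nb : (sp k b).Nonempty := sp_nonempty (by rw [hb]; exact hd)
  have hspk : ∀ {j l k' : ℕ} {c : ℕ → ℕ}, sp k' c = {j, l} → j ≤ k' ∧ l ≤ k' := by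
    intro j l k' c he
    have h1 : j ∈ sp k' c := by rw [he]; exact Finset.mem_insert_self _ _
    have h2 : l ∈ sp k' c := by
      rw [he]
      exact Finset.mem_insert_of_mem (Finset.mem_singleton_self _)
    exact ⟨(mem_sp.1 h1).1, (mem_sp.1 h2).1⟩
  by_cases h1 : ∀ x ∈ sp k a, x = p
  · have hS : sp k a = {p} := by
      ext x
      rw [Finset.mem_singleton]
      exact ⟨h1 x, fun hx => hx ▸ hp⟩
    have hcb : (sp k b).card ≠ 1 := fun hcb => hc ⟨by rw [hS]; exact Finset.card_singleton p, hcb⟩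
    obtain ⟨q, hq, hqm⟩ : ∃ q ∈ sp k b, ∀ x ∈ sp k b, x ≤ q :=
      ⟨_, (sp k b).max'_mem nb, fun x hx => (sp k b).le_max' x hx⟩
    obtain ⟨y, hy1, hy2⟩ : ∃ y ∈ sp k b, y < q := by
      by_contra hcon
      push Not at hcon
      apply hcb
      rw [Finset.card_eq_one]
      refine ⟨q, ?_⟩
      ext x
      rw [Finset.mem_singleton]
      exact ⟨fun hx => le_antisymm (hqm x hx) (hcon x hx), fun hx => hx ▸ hq⟩
    have hpq := hpb q hq
    refine ap_of oaa hO hd fun j l k' a' b' hjl ha' hb' e1 e2 => ?_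
    obtain ⟨hjk, hlk⟩ := hspk e1
    have r1 : R.R k' (sg l d) b' := push_rel oaa hO ha hb h (stp_mono (q := q) hjl.le)
      (deg_sg hlk) hb' (by
        rw [sp_sg hlk hd, img_high ⟨p, hp⟩]
        intro x hx
        rw [h1 x hx]
        exact hpq) (by rw [img_low nb hqm, e2])
    have r2 : R.R k' (sg l d) a' := push_rel oaa hO ha hb h (stp_mono (q := y) hjl.le)
      (deg_sg hlk) ha' (by
        rw [sp_sg hlk hd, img_high ⟨p, hp⟩]
        intro x hx
        rw [h1 x hx]
        exact hy2.trans hpq) (by rw [img_both hy1 hq le_rfl hy2, e1])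
    exact R.trans (R.symm r2) r1
  · push Not at h1
    obtain ⟨y, hy1, hy2⟩ := h1
    refine ap_of oaa hO hd fun j l k' a' b' hjl ha' hb' e1 e2 => ?_
    rcases lt_or_gt_of_ne hy2 with hyp | hyp
    · refine push_rel oaa hO ha hb h (stp_mono (q := p - 1) hjl.le) ha' hb'
        (by rw [img_both hy1 hp (by omega) (by omega), e1]) ?_
      rw [img_low nb fun x hx => by have := hpb x hx; omega, e2]
    · refine push_rel oaa hO ha hb h (stp_mono (q := p) hjl.le) ha' hb'
        (by rw [img_both hp hy1 le_rfl hyp, e1]) ?_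
      rw [img_low nb fun x hx => (hpb x hx).le, e2]

end

/-- **OAR** -/
theorem oar (sep : SepStmt) (oaa : OaaStmt) (oai : OaiStmt) : OarStmt := by
  intro R k a b hO h2 hab h hne
  obtain ⟨d, hd⟩ : ∃ d, d = deg k a := ⟨_, rfl⟩
  have ha : deg k a = d := hd.symm
  have hb : deg k b = d := hab.symm.trans ha
  rw [ha] at hO h2 ⊢
  have hd0 : d ≠ 0 := by omega
  have na : (sp k a).Nonempty := sp_nonempty (by rw [ha]; exact hd0)
  have nb : (sp k b).Nonempty := sp_nonempty (by rw [hb]; exact hd0)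
  have ca := card_sp_le k a
  have cb := card_sp_le k b
  rw [ha] at ca
  rw [hb] at cb
  refine ⟨?_, ?_, ?_, ?_⟩
  · by_cases hm : max (sp k a).card (sp k b).card ≤ 2
    · exact ip_small oaa hO hd0 hm
    · have hm' : 2 < max (sp k a).card (sp k b).card := not_le.1 hm
      rcases le_total (sp k b).card (sp k a).card with hc | hc
      · rw [max_eq_left hc] at hm' ⊢
        have hO1 : O1 R := by
          rcases hO with hO | hO
          · exact hO
          · omega
        exact part1 sep oai hO1 ha hb hd0 h hne hc hm'.le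
      · rw [max_eq_right hc] at hm' ⊢
        have hO1 : O1 R := by
          rcases hO with hO | hO
          · exact hO
          · omega
        exact part1 sep oai hO1 hb ha hd0 (R.symm h) hne.symm hc hm'.le
  · intro hmin hc
    have h3 : (sp k a).min' na ≠ (sp k b).min' nb := by
      intro he
      apply hmin
      rw [← Finset.coe_min' na, ← Finset.coe_min' nb, he]
    rcases lt_or_gt_of_ne h3 with h4 | h4
    · exact part2 oaa hO hd0 ha hb h ((sp k a).min'_mem na)
        (fun x hx => h4.trans_le ((sp k b).min'_le x hx)) hc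
    · exact part2 oaa hO hd0 hb ha (R.symm h) ((sp k b).min'_mem nb)
        (fun x hx => h4.trans_le ((sp k a).min'_le x hx)) fun hh => hc ⟨hh.2, hh.1⟩
  · intro hmax hc
    have h3 : (sp k a).max' na ≠ (sp k b).max' nb := by
      intro he
      apply hmax
      rw [← Finset.coe_max' na, ← Finset.coe_max' nb, he]
    rcases lt_or_gt_of_ne h3 with h4 | h4
    · exact part3 oaa hO hd0 hb ha (R.symm h) ((sp k b).max'_mem nb)
        (fun x hx => ((sp k a).le_max' x hx).trans_lt h4) fun hh => hc ⟨hh.2, hh.1⟩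
    · exact part3 oaa hO hd0 ha hb h ((sp k a).max'_mem na)
        (fun x hx => ((sp k b).le_max' x hx).trans_lt h4) hc
  · intro c1 c2
    obtain ⟨p, hp⟩ := Finset.card_eq_one.1 c1
    obtain ⟨q, hq⟩ := Finset.card_eq_one.1 c2
    have hpq : p ≠ q := by
      rintro rfl
      exact hne (hp.trans hq.symm)
    intro k' a' b' ha' hb' ca' cb'
    obtain ⟨i, hi⟩ := Finset.card_eq_one.1 ca'
    obtain ⟨j, hj⟩ := Finset.card_eq_one.1 cb'
    have key : ∀ {u v : ℕ → ℕ} {i j : ℕ}, deg k' u = d → deg k' v = d → sp k' u = {i} →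
        sp k' v = {j} → i < j → R.R k' u v := by
      intro u v i j hu hv eu ev hij
      rcases lt_or_gt_of_ne hpq with h5 | h5
      · exact push_rel oaa hO ha hb h (stp_mono (q := p) hij.le) hu hv
          (by rw [hp, Finset.image_singleton, eu]; simp [stp])
          (by rw [hq, Finset.image_singleton, ev]; simp [stp, h5])
      · exact push_rel oaa hO hb ha (R.symm h) (stp_mono (q := q) hij.le) hu hv
          (by rw [hq, Finset.image_singleton, eu]; simp [stp])
          (by rw [hp, Finset.image_singleton, ev]; simp [stp, h5])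
    rcases lt_trichotomy i j with h5 | h5 | h5
    · exact key ha' hb' hi hj h5
    · refine oaa R k' a' b' (by rw [ha']; exact hO) (ha'.trans hb'.symm) ?_
      rw [hi, hj, h5]
    · exact R.symm (key hb' ha' hj hi h5)

end Pool.Agent.MVO.H34
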