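import Pool.Agent.MVO.StmtsN

/-!
# Squad MVO, row GTS
-/

set_option autoImplicit false

namespace Pool.Agent.MVO.H34

open Pool.Agent.Helper14_MV Pool.Agent.Helper2_MV Pool.Agent.MVO

theorem range'_pre {A B : List ℕ} {s n : ℕ} (h : A ++ B = List.range' s n) :
    A = List.range' s A.length ∧ B = List.range' (s + A.length) (n - A.length) := by
  have hn : A.length + B.length = n := by
    have h1 := congrArg List.length h
    rwa [List.length_append, List.length_range'] at h1
  have h2 : List.range' s n = List.range' s A.length ++ List.range' (s + A.length) B.length := by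
    rw [← hn, ← List.range'_append_1]
  rw [h2] at h
  obtain ⟨h3, h4⟩ := List.append_inj h (by rw [List.length_range'])
  refine ⟨h3, ?_⟩
  rw [show n - A.length = B.length by omega]
  exact h4

/-- splitting of the simple letters -/
theorem split_seps {k k1 : ℕ} {M Q : List ℕ} {g : ℕ → List ℕ}
    (h : M ++ (seps k1).flatMap g ++ Q = List.range' 2 k) :
    ∃ f : ℕ → ℕ, BMap k1 k f ∧ M = List.range' 2 (f 0) ∧
      (∀ t, 2 ≤ t → t ≤ k1 + 1 → g t = List.range' (f (t - 2) + 2) (f (t - 1) - f (t - 2))) ∧
      Q = List.range' (f k1 + 2) (k - f k1) := by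
  obtain ⟨f, hf⟩ : ∃ f : ℕ → ℕ, f = fun j => (M ++ (seps j).flatMap g).length := ⟨_, rfl⟩
  -- all prefixes
  have hpre : ∀ j ≤ k1, M ++ (seps j).flatMap g = List.range' 2 (f j) := by
    intro j hj
    have h1 : ∃ R, M ++ (seps j).flatMap g ++ R = List.range' 2 k := by
      obtain ⟨d, rfl⟩ : ∃ d, k1 = j + d := ⟨k1 - j, by omega⟩
      have h2 : ∀ d, ∃ R, seps (j + d) = seps j ++ R := by
        intro d
        induction d with
        | zero => exact ⟨[], by simp⟩
        | succ d ih =>
          obtain ⟨R, hR⟩ := ih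
          refine ⟨R ++ [j + d + 2], ?_⟩
          rw [← Nat.add_assoc, seps_succ, hR, List.append_assoc]
      obtain ⟨R, hR⟩ := h2 d
      refine ⟨R.flatMap g ++ Q, ?_⟩
      rw [← h, hR, List.flatMap_append]
      simp only [List.append_assoc]
    obtain ⟨R, hR⟩ := h1
    have h3 := (range'_pre hR).1
    rw [hf]
    exact h3
  have hstep : ∀ j, f j ≤ f (j + 1) := by
    intro j
    rw [hf]
    show (M ++ (seps j).flatMap g).length ≤ (M ++ (seps (j + 1)).flatMap g).length
    rw [seps_succ, List.flatMap_append]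
    simp only [List.length_append]
    omega
  have hmono : Monotone f := monotone_nat_of_le_succ hstep
  have hlast : f k1 ≤ k := by
    have h1 := congrArg List.length h
    rw [List.length_append, List.length_range'] at h1
    rw [hf]
    show (M ++ (seps k1).flatMap g).length ≤ k
    omega
  refine ⟨f, ⟨fun i j hij _ => hmono hij, fun i hi => (hmono hi).trans hlast⟩, ?_, ?_, ?_⟩
  · have h1 := hpre 0 (Nat.zero_le _)
    simpa [seps] using h1
  · intro t h1 h2
    obtain ⟨j, rfl⟩ : ∃ j, t = j + 2 := ⟨t - 2, by omega⟩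
    have h3 := hpre (j + 1) (by omega)
    rw [seps_succ, List.flatMap_append, ← List.append_assoc, hpre j (by omega)] at h3
    have h4 := (range'_pre h3).2
    rw [List.length_range'] at h4
    simp only [List.flatMap_cons, List.flatMap_nil, List.append_nil] at h4
    rw [h4, show j + 2 - 2 = j by omega, show j + 2 - 1 = j + 1 by omega,
      show 2 + f j = f j + 2 by omega]
  · have h3 := (range'_pre h).2
    have h4 : (M ++ (seps k1).flatMap g).length = f k1 := by rw [hf]
    rw [h4] at h3
    rw [h3]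
    congr 1
    omega

theorem asm_nil (k : ℕ) : asm k (fun _ => []) = seps k := by
  induction k with
  | zero => rfl
  | succ k ih => rw [seps_succ, ← ih]; rfl

/-- the letters `0` and `1` -/
def Two01 (B : ℕ → List ℕ) : Prop := ∀ j, ∀ c ∈ B j, c = 0 ∨ c = 1

theorem filter_ge {k : ℕ} {B : ℕ → List ℕ} (hB : ∀ j ≤ k, ∀ c ∈ B j, c = 0 ∨ c = 1) :
    (asm k B).filter (fun c => decide (2 ≤ c)) = seps k := by
  rw [asm_filter _ (fun c h _ => by rw [decide_eq_true_iff]; exact h), ← asm_nil]
  refine asm_congr fun j hj => ?_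
  rw [List.filter_eq_nil_iff]
  intro c hc
  rw [decide_eq_true_iff]
  rcases hB j hj c hc with h | h <;> omega

theorem sum_split (h : ℕ → ℕ) (l : List ℕ) :
    (l.map h).sum = l.count 0 * h 0 + l.count 1 * h 1 +
      ((l.filter (fun c => decide (2 ≤ c))).map h).sum := by
  induction l with
  | nil => simp
  | cons x l ih =>
    rw [List.map_cons, List.sum_cons, ih]
    rcases Nat.lt_or_ge x 2 with hx | hx
    · rw [List.filter_cons_of_neg (by rw [decide_eq_true_iff]; omega)]
      rcases (by omega : x = 0 ∨ x = 1) with rfl | rfl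
      · rw [List.count_cons_self, List.count_cons_of_ne (by decide)]
        ring
      · rw [List.count_cons_self, List.count_cons_of_ne (by decide)]
        ring
    · rw [List.filter_cons_of_pos (by rw [decide_eq_true_iff]; exact hx), List.map_cons,
        List.sum_cons, List.count_cons_of_ne (by omega), List.count_cons_of_ne (by omega)]
      ring

theorem count_flatMap_split (g : ℕ → List ℕ) (l : List ℕ) (c : ℕ) :
    (l.flatMap g).count c = l.count 0 * (g 0).count c + l.count 1 * (g 1).count c +
      (((l.filter (fun c => decide (2 ≤ c))).flatMap g)).count c := by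
  rw [List.count_flatMap, List.count_flatMap]
  exact sum_split (List.count c ∘ g) l

theorem flatMap_filter_split {g : ℕ → List ℕ} {p : ℕ → Bool} (h0 : (g 0).filter p = [])
    (h1 : (g 1).filter p = []) (l : List ℕ) (hl : ∀ t ∈ l, 2 ≤ t → (g t).filter p = g t) :
    (l.flatMap g).filter p = (l.filter (fun c => decide (2 ≤ c))).flatMap g := by
  induction l with
  | nil => simp
  | cons x l ih =>
    rw [List.flatMap_cons, List.filter_append,
      ih (fun t ht => hl t (List.mem_cons_of_mem _ ht))]
    rcases Nat.lt_or_ge x 2 with hx | hx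
    · rw [List.filter_cons_of_neg (by rw [decide_eq_true_iff]; omega)]
      rcases (by omega : x = 0 ∨ x = 1) with rfl | rfl
      · rw [h0, List.nil_append]
      · rw [h1, List.nil_append]
    · rw [List.filter_cons_of_pos (by rw [decide_eq_true_iff]; exact hx), List.flatMap_cons,
        hl x List.mem_cons_self hx]

theorem count_bl (p q : ℕ) (e : Bool) : (bl p q e).count 0 = p ∧ (bl p q e).count 1 = q := by
  unfold bl
  cases e <;> simp [List.count_append, List.count_replicate]

theorem mem_bl {p q : ℕ} {e : Bool} {c : ℕ} (h : c ∈ bl p q e) : c = 0 ∨ c = 1 := by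
  unfold bl at h
  cases e
  · simp only [Bool.false_eq_true, ↓reduceIte, List.mem_append, List.mem_replicate] at h
    tauto
  · simp only [↓reduceIte, List.mem_append, List.mem_replicate] at h
    tauto

theorem ns01 {k c : ℕ} (h : c = 0 ∨ c = 1) : NS k c := by
  unfold NS
  omega

theorem count_w2 (k : ℕ) (a b : ℕ → ℕ) (e : ℕ → Bool) :
    (w2 k a b e).count 0 = deg k a ∧ (w2 k a b e).count 1 = deg k b := by
  unfold w2
  rw [count_asm (ns01 (Or.inl rfl)), count_asm (ns01 (Or.inr rfl))]
  exact ⟨by simp only [(count_bl _ _ _).1], by simp only [(count_bl _ _ _).2]⟩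

/-- if the image of `0` or of `1` is empty, the order does not matter -/
theorem w2_flatMap {g : ℕ → List ℕ} (hg : g 0 = [] ∨ g 1 = []) (k : ℕ) (a b : ℕ → ℕ)
    (e e' : ℕ → Bool) : (w2 k a b e).flatMap g = (w2 k a b e').flatMap g := by
  have hr : ∀ (c : ℕ), g c = [] → ∀ n, (List.replicate n c).flatMap g = [] := by
    intro c hc n
    induction n with
    | zero => rfl
    | succ n ih => rw [List.replicate_succ, List.flatMap_cons, hc, ih]; rfl
  have hb : ∀ (p q : ℕ) (e e' : Bool), (bl p q e).flatMap g = (bl p q e').flatMap g := by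
    intro p q e e'
    unfold bl
    rcases hg with hg | hg
    · cases e <;> cases e' <;> simp [List.flatMap_append, hr _ hg]
    · cases e <;> cases e' <;> simp [List.flatMap_append, hr _ hg]
  unfold w2
  induction k with
  | zero => exact hb _ _ _ _
  | succ k ih =>
    simp only [asm]
    rw [List.flatMap_append, List.flatMap_append, List.flatMap_cons, List.flatMap_cons, ih,
      hb _ _ (e (k + 1)) (e' (k + 1))]

theorem count_pshB (k : ℕ) (f : ℕ → ℕ) (B : ℕ → List ℕ) (j c : ℕ) :
    (pshB k f B j).count c = psh k f (fun i => (B i).count c) j := by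
  induction k with
  | zero =>
    rw [pshB_zero]
    unfold psh
    by_cases h : f 0 = j
    · simp [h]
    · simp [h]
  | succ k ih =>
    rw [pshB_succ, List.count_append, ih]
    unfold psh
    rw [Finset.sum_range_succ _ (k + 1)]
    by_cases h : f (k + 1) = j
    · rw [if_pos h, if_pos h]
    · rw [if_neg h, if_neg h]
      simp

theorem flatMap_congr_mem {l : List ℕ} {f g : ℕ → List ℕ} (h : ∀ c ∈ l, f c = g c) :
    l.flatMap f = l.flatMap g := by
  induction l with
  | nil => rfl
  | cons x l ih =>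
    rw [List.flatMap_cons, List.flatMap_cons, h x List.mem_cons_self,
      ih (fun c hc => h c (List.mem_cons_of_mem _ hc))]

/-- the blocks of a word `M φ(u) Q` in which `0`, `1` come from `0`, `1` -/
theorem blocks_of {k k1 : ℕ} {B B1 : ℕ → List ℕ} {M Q : List ℕ} {g : ℕ → List ℕ}
    (hB : ∀ j ≤ k, ∀ c ∈ B j, c = 0 ∨ c = 1) (hB1 : ∀ j ≤ k1, ∀ c ∈ B1 j, c = 0 ∨ c = 1)
    (h : M ++ (asm k1 B1).flatMap g ++ Q = asm k B) (h0 : g 0 = [0]) (h1 : g 1 = [1])
    (hc0 : (asm k B).count 0 = (asm k1 B1).count 0)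
    (hc1 : (asm k B).count 1 = (asm k1 B1).count 1) :
    ∃ f, BMap k1 k f ∧ ∀ j ≤ k, ∀ c, (B j).count c = psh k1 f (fun i => (B1 i).count c) j := by
  have hf1 := filter_ge hB1
  have hno : ∀ c, (c = 0 ∨ c = 1) → M.count c = 0 ∧ ((seps k1).flatMap g).count c = 0 ∧
      Q.count c = 0 := by
    intro c hc
    have e1 : (asm k B).count c = M.count c + ((asm k1 B1).flatMap g).count c + Q.count c := by
      rw [← h, List.count_append, List.count_append]
    rw [count_flatMap_split, hf1, h0, h1] at e1
    rcases hc with rfl | rfl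
    · rw [hc0] at e1
      simp at e1
      omega
    · rw [hc1] at e1
      simp at e1
      omega
  have hmem : ∀ c ∈ asm k B, (c = 0 ∨ c = 1) ∨ (2 ≤ c ∧ c ≤ k + 1) := by
    intro c hc
    rcases mem_asm.1 hc with hc | ⟨j, hj, hc⟩
    · exact Or.inr hc
    · exact Or.inl (hB j hj c hc)
  have hsub : ∀ (l : List ℕ), (∀ c ∈ l, c ∈ asm k B) → (∀ c, (c = 0 ∨ c = 1) → l.count c = 0) →
      l.filter (fun c => decide (2 ≤ c)) = l := by
    intro l hl hl0
    rw [List.filter_eq_self]
    intro c hc
    rw [decide_eq_true_iff]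
    rcases hmem c (hl c hc) with h3 | h3
    · exfalso
      have h4 := hl0 c h3
      rw [List.count_eq_zero] at h4
      exact h4 hc
    · exact h3.1
  have hmemM : ∀ c ∈ M, c ∈ asm k B := fun c hc => by
    rw [← h]
    exact List.mem_append_left _ (List.mem_append_left _ hc)
  have hmemQ : ∀ c ∈ Q, c ∈ asm k B := fun c hc => by
    rw [← h]
    exact List.mem_append_right _ hc
  have hsm : ∀ t ∈ asm k1 B1, 2 ≤ t → t ∈ seps k1 := by
    intro t ht h2
    rw [← hf1, List.mem_filter, decide_eq_true_iff]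
    exact ⟨ht, h2⟩
  have hgt : ∀ t ∈ asm k1 B1, 2 ≤ t → (g t).filter (fun c => decide (2 ≤ c)) = g t := by
    intro t ht h2
    refine hsub _ (fun c hc => ?_) (fun c hc => ?_)
    · rw [← h]
      exact List.mem_append_left _ (List.mem_append_right _ (List.mem_flatMap.2 ⟨t, ht, hc⟩))
    · have h3 := (hno c hc).2.1
      rw [List.count_eq_zero] at h3 ⊢
      exact fun hcc => h3 (List.mem_flatMap.2 ⟨t, hsm t ht h2, hcc⟩)
  have hall : M ++ (seps k1).flatMap g ++ Q = List.range' 2 k := by
    have h3 := filter_ge hB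
    rw [← h, List.filter_append, List.filter_append,
      hsub M hmemM fun c hc => (hno c hc).1, hsub Q hmemQ fun c hc => (hno c hc).2.2,
      flatMap_filter_split (by rw [h0]; decide) (by rw [h1]; decide) _ hgt, hf1] at h3
    exact h3
  obtain ⟨f, hf, hM, hg, hQ⟩ := split_seps hall
  refine ⟨f, hf, ?_⟩
  have hok1 : BlkOk k1 B1 := fun j hj c hc => ns01 (hB1 j hj c hc)
  have hok : BlkOk k B := fun j hj c hc => ns01 (hB j hj c hc)
  have hp := push_word hf hok1
  have e3 : (asm k1 B1).flatMap g = (asm k1 B1).flatMap (pSub k1 f) := by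
    refine flatMap_congr_mem fun c hc => ?_
    rcases mem_asm.1 hc with hc | ⟨j, hj, hc⟩
    · rw [hg c hc.1 hc.2]
      unfold pSub
      rw [if_pos hc]
    · rcases hB1 j hj c hc with rfl | rfl
      · rw [h0, pSub_ns (ns01 (Or.inl rfl))]
      · rw [h1, pSub_ns (ns01 (Or.inr rfl))]
  rw [e3, hM, hQ, hp] at h
  have hok' : BlkOk k (pshB k1 f B1) := by
    intro j hj c hc
    obtain ⟨i, hi, _, hc'⟩ := mem_pshB.1 hc
    exact ns01 (hB1 i hi c hc')
  intro j hj c
  rw [← uniq hok' hok h j hj, count_pshB]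

theorem count_le_of_mem {k : ℕ} {B : ℕ → List ℕ} (hB : ∀ j ≤ k, ∀ c ∈ B j, c = 0 ∨ c = 1) {c : ℕ}
    (hc : ¬ (c = 0 ∨ c = 1)) : (asm k B).count c ≤ 1 := by
  by_cases h2 : 2 ≤ c ∧ c ≤ k + 1
  · exact (count_sep (fun j hj c hc => ns01 (hB j hj c hc)) h2.1 h2.2).le
  · rw [List.count_eq_zero_of_not_mem]
    · exact Nat.zero_le _
    · intro hm
      rcases mem_asm.1 hm with hm | ⟨j, hj, hm⟩
      · exact h2 hm
      · exact hc (hB j hj c hm)

theorem list_eq_of_count {l : List ℕ} {x : ℕ} (h : ∀ c, c ≠ x → l.count c = 0)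
    (h1 : l.count x ≤ 1) : l = [] ∨ l = [x] := by
  have h2 : ∀ c ∈ l, c = x := by
    intro c hc
    by_contra hne
    have := h c hne
    rw [List.count_eq_zero] at this
    exact this hc
  have h3 : l = List.replicate l.length x := List.eq_replicate_of_mem h2
  have h4 : l.count x = l.length := by
    conv_lhs => rw [h3]
    rw [List.count_replicate_self]
  rw [h4] at h1
  rcases (by omega : l.length = 0 ∨ l.length = 1) with h5 | h5
  · left
    exact List.length_eq_zero_iff.1 h5
  · right
    rw [h3, h5]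
    rfl

/-- one direction of the exchange -/
theorem gts_aux {k : ℕ} {T : (ℕ → ℕ) → (ℕ → ℕ) → Prop} (hT : TExt k T) (hD : TDeg k T) {k1 : ℕ}
    {a1 b1 : ℕ → ℕ} (ha : deg k1 a1 = 3) (hb : deg k1 b1 = 2)
    (hno : ∀ f, BMap k1 k f → ¬ T (psh k1 f a1) (psh k1 f b1)) (e e' : ℕ → Bool)
    (φ : Word →* Word) (m q : Word)
    (h : QT k T (m * φ (FreeMonoid.ofList (w2 k1 a1 b1 e)) * q)) :
    QT k T (m * φ (FreeMonoid.ofList (w2 k1 a1 b1 e')) * q) := by
  obtain ⟨g, hg⟩ : ∃ g : ℕ → List ℕ, g = fun c => (φ (FreeMonoid.of c)).toList := ⟨_, rfl⟩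
  have hW : ∀ e, (m * φ (FreeMonoid.ofList (w2 k1 a1 b1 e)) * q).toList =
      m.toList ++ (w2 k1 a1 b1 e).flatMap g ++ q.toList := by
    intro e
    rw [FreeMonoid.toList_mul, FreeMonoid.toList_mul, toList_hom, hg, FreeMonoid.toList_ofList]
  obtain ⟨B, hWB, hB, hTB, hl⟩ := h
  have hTB' := hD _ _ hTB
  have hwk : ∀ c, (asm k B).count c = m.toList.count c + (3 * (g 0).count c +
      2 * (g 1).count c + ((seps k1).flatMap g).count c) + q.toList.count c := by
    intro c
    rw [← hWB, hW, List.count_append, List.count_append, count_flatMap_split, (count_w2 _ _ _ _).1,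
      (count_w2 _ _ _ _).2, ha, hb]
    have h3 : (w2 k1 a1 b1 e).filter (fun c => decide (2 ≤ c)) = seps k1 :=
      filter_ge fun j _ c hc => mem_bl hc
    rw [h3]
  have hc0 : (asm k B).count 0 = 3 := by
    rw [count_asm (ns01 (Or.inl rfl))]
    exact hTB'.1
  have hc1 : (asm k B).count 1 = 2 := by
    rw [count_asm (ns01 (Or.inr rfl))]
    exact hTB'.2
  have g0 : g 0 = [] ∨ g 0 = [0] := by
    refine list_eq_of_count (fun c hc => ?_) ?_
    · have h3 := hwk c
      by_cases h4 : c = 1
      · rw [h4] at h3 ⊢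
        omega
      · have h5 := count_le_of_mem hB (c := c) (by omega)
        omega
    · have h3 := hwk 0
      omega
  have heq : (g 0 = [] ∨ g 1 = []) → QT k T (m * φ (FreeMonoid.ofList (w2 k1 a1 b1 e')) * q) := by
    intro hg01
    have h3 : (m * φ (FreeMonoid.ofList (w2 k1 a1 b1 e')) * q) =
        (m * φ (FreeMonoid.ofList (w2 k1 a1 b1 e)) * q) := by
      apply FreeMonoid.toList.injective
      rw [hW, hW, w2_flatMap hg01 k1 a1 b1 e' e]
    rw [h3]
    exact ⟨B, hWB, hB, hTB, hl⟩
  rcases g0 with g0 | g0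
  · exact heq (Or.inl g0)
  · have g1 : g 1 = [] ∨ g 1 = [1] := by
      refine list_eq_of_count (fun c hc => ?_) ?_
      · have h3 := hwk c
        by_cases h4 : c = 0
        · rw [h4, g0] at h3
          rw [h4]
          simp at h3
          omega
        · have h5 := count_le_of_mem hB (c := c) (by omega)
          omega
      · have h3 := hwk 1
        omega
    rcases g1 with g1 | g1
    · exact heq (Or.inr g1)
    · exfalso
      obtain ⟨f, hf, hcount⟩ := blocks_of (B1 := fun j => bl (a1 j) (b1 j) (e j)) hB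
        (fun j _ c hc => mem_bl hc) (M := m.toList) (Q := q.toList) (g := g)
        (by rw [← hWB, hW]; rfl) g0 g1
        (by
          rw [hc0, ← ha]
          exact (count_w2 k1 a1 b1 e).1.symm)
        (by
          rw [hc1, ← hb]
          exact (count_w2 k1 a1 b1 e).2.symm)
      refine hno f hf (hT _ _ _ _ (fun j hj => ?_) (fun j hj => ?_) hTB)
      · rw [hcount j hj 0]
        simp only [(count_bl _ _ _).1]
      · rw [hcount j hj 1]
        simp only [(count_bl _ _ _).2]

/-- **GTS** -/
theorem gts : GtsStmt := by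
  intro k T hT hD k1 a1 b1 ha hb hno i e φ m q
  exact ⟨gts_aux hT hD ha hb hno _ _ φ m q, gts_aux hT hD ha hb hno _ _ φ m q⟩

end Pool.Agent.MVO.H34
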