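import Pool.Agent.MVO.StmtsN

/-!
# Squad MVO, row RVO
-/

set_option autoImplicit false

namespace Pool.Agent.MVO.H34

open Pool.Agent.Helper14_MV Pool.Agent.Helper2_MV Pool.Agent.MVO

/-- reversal of the simple letters `2, …, k + 1` -/
def rv (k : ℕ) : ℕ → List ℕ := fun t => if 2 ≤ t ∧ t ≤ k + 1 then [k + 3 - t] else [t]

theorem rv_rv (k : ℕ) (l : List ℕ) : (l.flatMap (rv k)).flatMap (rv k) = l := by
  induction l with
  | nil => rfl
  | cons t l ih =>
    rw [List.flatMap_cons, List.flatMap_append, ih]
    have h : (rv k t).flatMap (rv k) = [t] := by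
      unfold rv
      by_cases h : 2 ≤ t ∧ t ≤ k + 1
      · rw [if_pos h, List.flatMap_cons, List.flatMap_nil, List.append_nil, if_pos (by omega)]
        congr 1
        omega
      · rw [if_neg h, List.flatMap_cons, List.flatMap_nil, List.append_nil, if_neg h]
    rw [h]
    rfl

/-- the word without the last block -/
def pre (B : ℕ → List ℕ) : ℕ → List ℕ
  | 0 => []
  | k + 1 => asm k B ++ [k + 2]

theorem asm_pre (B : ℕ → List ℕ) (k : ℕ) : asm k B = pre B k ++ B k := by
  cases k with
  | zero => simp [asm, pre]
  | succ k => simp [asm, pre]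

theorem asm_rev_aux (K : ℕ) (a : ℕ → ℕ) : ∀ k ≤ K,
    asm K (fun j => List.replicate (a (K - j)) 0) =
      asm (K - k) (fun j => List.replicate (a (K - j)) 0) ++
        (pre (fun j => List.replicate (a j) 0) k).reverse.flatMap (rv K) := by
  intro k
  induction k with
  | zero =>
    intro _
    simp [pre]
  | succ k ih =>
    intro hk
    rw [ih (by omega)]
    obtain ⟨m, hm⟩ : ∃ m, K - k = m + 1 := ⟨K - k - 1, by omega⟩
    have hm' : K - (k + 1) = m := by omega
    rw [hm, hm']
    have e1 : pre (fun j => List.replicate (a j) 0) (k + 1) =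
        pre (fun j => List.replicate (a j) 0) k ++ List.replicate (a k) 0 ++ [k + 2] := by
      show asm k (fun j => List.replicate (a j) 0) ++ [k + 2] = _
      rw [asm_pre]
    rw [e1]
    have e2 : (List.replicate (a k) 0).flatMap (rv K) = List.replicate (a k) 0 := by
      have h0 : rv K 0 = [0] := by
        unfold rv
        rw [if_neg (by omega)]
      induction a k with
      | zero => rfl
      | succ n ihn => rw [List.replicate_succ, List.flatMap_cons, ihn, h0]; rfl
    have e3 : rv K (k + 2) = [m + 2] := by
      unfold rv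
      rw [if_pos (by omega)]
      congr 1
      omega
    have e4 : K - (m + 1) = k := by omega
    rw [List.reverse_append, List.reverse_append, List.reverse_replicate, List.reverse_singleton,
      List.flatMap_append, List.flatMap_append, List.flatMap_singleton, e3, e2]
    show (asm m _ ++ (m + 2) :: List.replicate (a (K - (m + 1))) 0) ++ _ = _
    rw [e4]
    simp

theorem mw_rev (k : ℕ) (a : ℕ → ℕ) :
    (mw k a).reverse.flatMap (rv k) = mw k (fun j => a (k - j)) := by
  unfold mw
  rw [asm_rev_aux k a k le_rfl, asm_pre _ k, List.reverse_append, List.reverse_replicate,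
    List.flatMap_append, Nat.sub_self]
  congr 1
  show _ = List.replicate (a (k - 0)) 0
  have h0 : rv k 0 = [0] := by
    unfold rv
    rw [if_neg (by omega)]
  rw [Nat.sub_zero]
  induction a k with
  | zero => rfl
  | succ n ihn => rw [List.replicate_succ, List.flatMap_cons, ihn, h0]; rfl

theorem mw_rev' (k : ℕ) (a : ℕ → ℕ) :
    (mw k (fun j => a (k - j))).flatMap (rv k) = (mw k a).reverse := by
  rw [← mw_rev, rv_rv]

/-- **RVO** -/
theorem rvo : RvoStmt := by
  intro β k a a'
  have e : L1 (FIC.op β) k a a' ↔ RR β (mw k a).reverse (mw k a').reverse := Iff.rfl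
  rw [e]
  unfold L1
  constructor
  · intro h
    have h1 := h.sub (rv k)
    rwa [mw_rev, mw_rev] at h1
  · intro h
    have h1 := h.sub (rv k)
    rwa [mw_rev', mw_rev'] at h1

end Pool.Agent.MVO.H34
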